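import Pool.Agent.Q193.Peg.Diam

/-! Inscribed squares in Jordan curves (no regularity) all of whose arcs of one size avoid two
opposite vertices of the two squares on their chord; a class of curves that is open in the uniform
topology, and contains the curves with a three-point condition with a constant below `1 + √2` for
the arcs of one size. -/

set_option autoImplicit false

namespace Pool.Agent.Results.MP_5a3ebe_gt.ArcsOfOneSize

open Set Metric

/-- `c` (of period `1`) parametrises a Jordan curve. -/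
structure IsJordan (c : ℝ → ℂ) : Prop where
  cont : Continuous c
  per : ∀ t, c (t + 1) = c t
  inj : Set.InjOn c (Set.Ico 0 1)

/-- The curve `c` contains the four vertices of a square. -/
def HasSquare (c : ℝ → ℂ) : Prop :=
  ∃ z w : ℂ, w ≠ 0 ∧ z ∈ Set.range c ∧ z + w ∈ Set.range c ∧
    z + w + Complex.I * w ∈ Set.range c ∧ z + Complex.I * w ∈ Set.range c

open Classical in
/-- The signed distance of `z` to the closed curve `c` (of period `1`): the distance of `z` to the
curve if the curve winds an odd number `n` of times around `z` (there is a continuous logarithm `k`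
of `c - z` with `k 1 - k 0 = 2 π n i`), and minus the distance otherwise. -/
noncomputable def sdist (c : ℝ → ℂ) (z : ℂ) : ℝ :=
  if ∃ n : ℤ, (∃ k : ℝ → ℂ, Continuous k ∧ (∀ t, Complex.exp (k t) = c t - z) ∧
      k 1 - k 0 = n * (2 * Real.pi * Complex.I)) ∧ Odd n
  then Metric.infDist z (Set.range c) else -Metric.infDist z (Set.range c)

/-- `F x y` is a size of the arc from `c x` to `c y` (`x ≤ y ≤ x + 1`): it is continuous, depends
only on the arc, and `ε` lies between the sizes of a point and the size of the whole curve. Examples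
are `F x y = y - x` with `0 < ε < 1`, and the diameter of the arc. Nothing else is assumed of `F`. -/
structure IsSize (F : ℝ → ℝ → ℝ) (ε : ℝ) : Prop where
  cont : Continuous fun p : ℝ × ℝ => F p.1 p.2
  per : ∀ x y, F (x + 1) (y + 1) = F x y
  lo : ∀ x, F x x < ε
  hi : ∀ x, ε < F x (x + 1)

/-- `V = c u` is the vertex next to `A = c x` (on the left of `A B` for `κ = i`, on the right for
`κ = -i`) of a square with the side from `A` to `B = c y`, and the fourth vertex of this square is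
strictly inside the curve if `σ = 1`, strictly outside the curve if `σ = -1`. -/
def Corner (c : ℝ → ℂ) (κ : ℂ) (σ x y u : ℝ) : Prop :=
  c u = c x + κ * (c y - c x) ∧ 0 < σ * sdist c (c y + κ * (c y - c x))

/-- **Part 1.** Let `C` be a Jordan curve without inscribed squares. Let `κ = i` or `κ = -i` and
`σ = 1` or `σ = -1`. For every `ε` with `0 < ε < diam C` there is an arc of `C` of diameter exactly
`ε`, one end of which is called `A` and the other one `B` (`A` may be the first or the last point of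
the arc), that contains the vertex `V = A + κ (B - A)` of the square `A, B, B + κ (B - A), V`, the
fourth vertex being strictly inside `C` (`σ = 1`) or strictly outside `C` (`σ = -1`). The same holds
for any other size `F` of arcs instead of the diameter.

**Part 2.** Let `c₀` be any closed curve (continuous, of period `1`, with or without
self-intersections). Let `κ = i` or `κ = -i` and suppose that for some size and some `ε` no arc of
size `ε`, with first point `A` and last point `B`, contains `A + κ (B - A)` or `B - κ (B - A)`. Then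
there is `η > 0` such that every Jordan curve with a distance less than `η` from `c₀` has an
inscribed square (no regularity; if `c₀` is a Jordan curve, then in particular it has one).

**Part 3.** Let `c₀` be any closed curve such that for some size and some `ε` the three-point
condition `|A V| + |V B| < (1 + √2) |A B|` holds for all points `V` of all arcs from `A` to `B` of
size `ε`. Then there is `η > 0` such that every Jordan curve with a distance less than `η` from `c₀`
has an inscribed square. -/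
theorem result :
    (∀ c : ℝ → ℂ, IsJordan c → ¬ HasSquare c →
      ∀ κ : ℂ, κ = Complex.I ∨ κ = -Complex.I → ∀ σ : ℝ, σ = 1 ∨ σ = -1 →
      (∀ ε : ℝ, 0 < ε → ε < diam (range c) →
        ∃ t1 t2 t3 : ℝ, t1 < t2 ∧ t2 < t3 ∧ t3 < t1 + 1 ∧ diam (c '' Icc t1 t3) = ε ∧
          (Corner c κ σ t1 t3 t2 ∨ Corner c κ σ t3 t1 t2)) ∧
      (∀ (F : ℝ → ℝ → ℝ) (ε : ℝ), IsSize F ε →
        ∃ t1 t2 t3 : ℝ, t1 < t2 ∧ t2 < t3 ∧ t3 < t1 + 1 ∧ F t1 t3 = ε ∧
          (Corner c κ σ t1 t3 t2 ∨ Corner c κ σ t3 t1 t2))) ∧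
    (∀ c₀ : ℝ → ℂ, Continuous c₀ → (∀ t, c₀ (t + 1) = c₀ t) →
      ∀ (F : ℝ → ℝ → ℝ) (ε : ℝ), IsSize F ε → ∀ κ : ℂ, κ = Complex.I ∨ κ = -Complex.I →
      (∀ x u y, x ≤ u → u ≤ y → y ≤ x + 1 → F x y = ε →
        c₀ u ≠ c₀ x + κ * (c₀ y - c₀ x) ∧ c₀ u ≠ c₀ y - κ * (c₀ y - c₀ x)) →
      ∃ η : ℝ, 0 < η ∧ ∀ c : ℝ → ℂ, IsJordan c → (∀ t, ‖c t - c₀ t‖ < η) → HasSquare c) ∧
    (∀ c₀ : ℝ → ℂ, Continuous c₀ → (∀ t, c₀ (t + 1) = c₀ t) →
      ∀ (F : ℝ → ℝ → ℝ) (ε : ℝ), IsSize F ε →
      (∀ x u y, x ≤ u → u ≤ y → y ≤ x + 1 → F x y = ε →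
        ‖c₀ x - c₀ u‖ + ‖c₀ u - c₀ y‖ < (1 + √2) * ‖c₀ x - c₀ y‖) →
      ∃ η : ℝ, 0 < η ∧ ∀ c : ℝ → ℂ, IsJordan c → (∀ t, ‖c t - c₀ t‖ < η) → HasSquare c) := by
  have hJ : ∀ c : ℝ → ℂ, IsJordan c → H763R2.An.Loop c ∧ H763R2.An.Inj c := fun c h =>
    ⟨⟨h.cont, h.per⟩, H765R3.Peg.inj_of ⟨h.cont, h.per⟩ h.inj⟩
  have hS : ∀ (F : ℝ → ℝ → ℝ) (ε : ℝ), IsSize F ε → Q193.Peg.Sz F ε := fun F ε h =>
    ⟨h.cont, h.per, h.lo, h.hi⟩
  have main : ∀ c₀ : ℝ → ℂ, Continuous c₀ → (∀ t, c₀ (t + 1) = c₀ t) →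
      ∀ (F : ℝ → ℝ → ℝ) (ε : ℝ), IsSize F ε → ∀ κ : ℂ, κ = Complex.I ∨ κ = -Complex.I →
      (∀ x u y, x ≤ u → u ≤ y → y ≤ x + 1 → F x y = ε →
        c₀ u ≠ c₀ x + κ * (c₀ y - c₀ x) ∧ c₀ u ≠ c₀ y - κ * (c₀ y - c₀ x)) →
      ∃ η : ℝ, 0 < η ∧ ∀ c : ℝ → ℂ, IsJordan c → (∀ t, ‖c t - c₀ t‖ < η) → HasSquare c := by
    intro c₀ h1 h2 F ε hF κ hκ H
    obtain ⟨η, hη, h⟩ := Q193.Peg.near h1 h2 (hS F ε hF) hκ (fun x u y a1 a2 a3 a4 => by
      obtain ⟨b1, b2⟩ := H x u y a1 a2 a3 a4
      refine ⟨b1, fun e => b2 ?_⟩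
      rw [e]; ring)
    refine ⟨η, hη, fun c hc hd => ?_⟩
    by_contra hno
    exact h c (hJ c hc).1 (hJ c hc).2 hd hno
  refine ⟨fun c hc hno κ hκ σ hσ => ⟨fun ε h0 h1 => ?_, fun F ε hF => ?_⟩, main, ?_⟩
  · obtain ⟨t1, t2, t3, a1, a2, a3, a4, a5⟩ := Q193.Peg.sized (hJ c hc).1 (hJ c hc).2 hno hκ hσ
      (Q193.Peg.dm_sz (hJ c hc).1 h0 h1)
    rw [Q193.Peg.dm_eq hc.cont (by linarith)] at a4
    exact ⟨t1, t2, t3, a1, a2, a3, a4, a5⟩
  · obtain ⟨t1, t2, t3, a1, a2, a3, a4, a5⟩ := Q193.Peg.sized (hJ c hc).1 (hJ c hc).2 hno hκ hσ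
      (hS F ε hF)
    exact ⟨t1, t2, t3, a1, a2, a3, a4, a5⟩
  · intro c₀ h1 h2 F ε hF H
    refine main c₀ h1 h2 F ε hF Complex.I (Or.inl rfl) fun x u y a1 a2 a3 a4 => ?_
    have key := H x u y a1 a2 a3 a4
    have hI : ‖(Complex.I - 1 : ℂ)‖ = √2 := by
      rw [Complex.norm_def]
      congr 1
      simp [Complex.normSq_apply]
      norm_num
    constructor
    · intro e
      have e1 : c₀ x - c₀ u = Complex.I * (c₀ x - c₀ y) := by rw [e]; ring
      have e2 : c₀ u - c₀ y = -((Complex.I - 1) * (c₀ x - c₀ y)) := by rw [e]; ring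
      rw [e1, e2, norm_neg, norm_mul, norm_mul, hI, Complex.norm_I] at key
      linarith
    · intro e
      have e1 : c₀ x - c₀ u = -((Complex.I - 1) * (c₀ x - c₀ y)) := by rw [e]; ring
      have e2 : c₀ u - c₀ y = Complex.I * (c₀ x - c₀ y) := by rw [e]; ring
      rw [e1, e2, norm_neg, norm_mul, norm_mul, hI, Complex.norm_I] at key
      linarith

end Pool.Agent.Results.MP_5a3ebe_gt.ArcsOfOneSize
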