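import Mathlib
import Pool.Agent.Q155.Cusp.Tip4
import Pool.Agent.Results.MP_5a3ebe_gt.LocalGraph

/-!
# Inscribed squares in Jordan curves with cusps

A Jordan curve `c` (continuous, of period `1`, injective on `[0, 1)`) has the four vertices of a
square on it as soon as at each parameter `s` one of the following holds: it is locally monotone in
the sense of Stromquist; or it has a thin tip at `s`, that is, it runs into the point `c s` and back
out of it in nearly the same direction, with no tangent required; or the two one-sided derivatives at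
`s` exist in the strong sense and are not zero (they may be opposite, which is the case of a cusp).
In particular all piecewise regular `C¹` Jordan curves, with corners and cusps of any kind, have
inscribed squares.
-/

set_option autoImplicit false

namespace Pool.Agent.Results.MP_5a3ebe_gt.CuspsAndThinTips

open Set

/-- The curve is locally monotone (in the sense of Stromquist) at the parameter `s`: near `s` all
chords of the curve lie in one open half plane. -/
def LocMono (c : ℝ → ℂ) (s : ℝ) : Prop := ∃ ρ > 0, ∃ w : ℂ, ∀ x y : ℝ, |x - s| < ρ → |y - s| < ρ →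
  x < y → 0 < (w * (c y - c x)).re

/-- The curve has a thin tip at the parameter `s`: for a suitable `w` the product of `w` with
`c y - c x`, `x < y` near `s`, has `5 |Im| < Re` when `x < y ≤ s` and `5 |Im| < -Re` when
`s ≤ x < y`.  So just before `s` the curve runs in one direction and just after `s` it runs back,
both branches being graphs of functions with slopes less than `1/5` in absolute value. -/
def ThinTip (c : ℝ → ℂ) (s : ℝ) : Prop := ∃ ρ > 0, ∃ w : ℂ,
  (∀ x y : ℝ, s - ρ < x → x < y → y ≤ s → 5 * |(w * (c y - c x)).im| < (w * (c y - c x)).re) ∧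
  (∀ x y : ℝ, s ≤ x → x < y → y < s + ρ → 5 * |(w * (c y - c x)).im| < -(w * (c y - c x)).re)

/-- The curve has at the parameter `s` the left derivative `u` and the right derivative `v`, both in
the strong sense (difference quotients of two parameters on the same side of `s`).  This is so when
`c` is continuously differentiable on `[s - ρ, s]` and on `[s, s + ρ]`. -/
def StrongSides (c : ℝ → ℂ) (s : ℝ) (u v : ℂ) : Prop :=
  (∀ ε > 0, ∃ ρ > 0, ∀ x y : ℝ, s - ρ < x → x < y → y ≤ s →
    ‖c y - c x - (y - x) * u‖ ≤ ε * (y - x)) ∧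
  (∀ ε > 0, ∃ ρ > 0, ∀ x y : ℝ, s ≤ x → x < y → y < s + ρ →
    ‖c y - c x - (y - x) * v‖ ≤ ε * (y - x))

/-- estimate for one side -/
theorem side {w u z : ℂ} {ε t κ : ℝ} (ht : 0 < t) (h : ‖z - t * u‖ ≤ ε * t)
    (h1 : ‖w‖ * ε * (1 + κ) < (w * u).re - κ * |(w * u).im|) (hκ : 0 ≤ κ) :
    κ * |(w * z).im| < (w * z).re := by
  obtain ⟨d, hd⟩ : ∃ d, d = w * (z - t * u) := ⟨_, rfl⟩
  have e1 : w * z = t * (w * u) + d := by rw [hd]; ring
  have hdn : ‖d‖ ≤ ‖w‖ * ε * t := by
    rw [hd, norm_mul, mul_assoc]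
    exact mul_le_mul_of_nonneg_left h (norm_nonneg _)
  have e2 : (w * z).re = t * (w * u).re + d.re := by rw [e1]; simp
  have e3 : (w * z).im = t * (w * u).im + d.im := by rw [e1]; simp
  have hr := (abs_le.1 ((Complex.abs_re_le_norm d).trans hdn)).1
  have hi := (Complex.abs_im_le_norm d).trans hdn
  have e4 : |(w * z).im| ≤ t * |(w * u).im| + ‖w‖ * ε * t := by
    rw [e3]
    refine (abs_add_le _ _).trans ?_
    rw [abs_mul, abs_of_pos ht]
    linarith
  have e5 : κ * |(w * z).im| ≤ κ * (t * |(w * u).im| + ‖w‖ * ε * t) :=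
    mul_le_mul_of_nonneg_left e4 hκ
  have e6 := mul_lt_mul_of_pos_right h1 ht
  rw [e2]
  nlinarith

theorem unit_of {u : ℂ} (hu : u ≠ 0) : ∃ (a : ℝ) (p : ℂ), 0 < a ∧ u = a * p ∧
    p.re * p.re + p.im * p.im = 1 := by
  have hu' : 0 < ‖u‖ := norm_pos_iff.2 hu
  have hc : (‖u‖ : ℂ) ≠ 0 := by exact_mod_cast hu'.ne'
  refine ⟨‖u‖, u / ‖u‖, hu', by rw [mul_div_cancel₀ _ hc], ?_⟩
  have h1 : ‖u / ‖u‖‖ = 1 := by rw [norm_div, Complex.norm_real, norm_norm, div_self hu'.ne']
  have h2 := Complex.normSq_eq_norm_sq (u / ‖u‖)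
  rw [h1, Complex.normSq_apply] at h2
  linarith

/-- for directions that are not opposite there is a common half plane -/
theorem common {u v : ℂ} (hu : u ≠ 0) (hv : v ≠ 0) (h : ¬ ∃ r : ℝ, 0 < r ∧ v = -(r * u)) :
    ∃ w : ℂ, 0 < (w * u).re ∧ 0 < (w * v).re := by
  obtain ⟨a, p, ha, hp, hpn⟩ := unit_of hu
  obtain ⟨b, q, hb, hq, hqn⟩ := unit_of hv
  have hpq : 0 < 1 + (p.re * q.re + p.im * q.im) := by
    by_contra hcon
    push Not at hcon
    have h1 : (p.re + q.re) ^ 2 + (p.im + q.im) ^ 2 ≤ 0 := by nlinarith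
    have h2 : p.re + q.re = 0 := by nlinarith [sq_nonneg (p.re + q.re), sq_nonneg (p.im + q.im)]
    have h3 : p.im + q.im = 0 := by nlinarith [sq_nonneg (p.re + q.re), sq_nonneg (p.im + q.im)]
    have h4 : q = -p := by
      apply Complex.ext
      · rw [Complex.neg_re]; linarith
      · rw [Complex.neg_im]; linarith
    have hac : (a : ℂ) ≠ 0 := by exact_mod_cast ha.ne'
    refine h ⟨b / a, by positivity, ?_⟩
    rw [hq, h4, hp]
    push_cast
    rw [← mul_assoc, div_mul_cancel₀ _ hac]
    ring
  refine ⟨starRingEnd ℂ (p + q), ?_, ?_⟩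
  · rw [hp, show starRingEnd ℂ (p + q) * (a * p) = a * (starRingEnd ℂ (p + q) * p) by ring,
      Complex.re_ofReal_mul]
    apply mul_pos ha
    simp only [map_add, Complex.mul_re, Complex.add_re, Complex.add_im, Complex.conj_re,
      Complex.conj_im]
    nlinarith
  · rw [hq, show starRingEnd ℂ (p + q) * (b * q) = b * (starRingEnd ℂ (p + q) * q) by ring,
      Complex.re_ofReal_mul]
    apply mul_pos hb
    simp only [map_add, Complex.mul_re, Complex.add_re, Complex.add_im, Complex.conj_re,
      Complex.conj_im]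
    nlinarith

/-- one-sided derivatives which are not opposite: the curve is locally monotone -/
theorem sides_mono {c : ℝ → ℂ} {s : ℝ} {u v w : ℂ} (h : StrongSides c s u v)
    (hu : 0 < (w * u).re) (hv : 0 < (w * v).re) : LocMono c s := by
  have hw : 0 < ‖w‖ := by
    rw [norm_pos_iff]
    rintro rfl
    simp at hu
  obtain ⟨ε, hε, h1, h2⟩ : ∃ ε > 0, ‖w‖ * ε < (w * u).re ∧ ‖w‖ * ε < (w * v).re := by
    refine ⟨min (w * u).re (w * v).re / (2 * ‖w‖), by positivity, ?_, ?_⟩
    · have := min_le_left (w * u).re (w * v).re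
      rw [mul_div_assoc', mul_comm, mul_div_mul_right _ _ hw.ne']
      linarith
    · have := min_le_right (w * u).re (w * v).re
      rw [mul_div_assoc', mul_comm, mul_div_mul_right _ _ hw.ne']
      linarith
  obtain ⟨ρ1, hρ1, k1⟩ := h.1 ε hε
  obtain ⟨ρ2, hρ2, k2⟩ := h.2 ε hε
  have A : ∀ x y, s - ρ1 < x → x < y → y ≤ s → 0 < (w * (c y - c x)).re := by
    intro x y a1 a2 a3
    have := side (w := w) (κ := 0) (t := y - x) (by linarith)
      (by have := k1 x y a1 a2 a3; push_cast; exact this) (by linarith) le_rfl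
    linarith
  have B : ∀ x y, s ≤ x → x < y → y < s + ρ2 → 0 < (w * (c y - c x)).re := by
    intro x y a1 a2 a3
    have := side (w := w) (κ := 0) (t := y - x) (by linarith)
      (by have := k2 x y a1 a2 a3; push_cast; exact this) (by linarith) le_rfl
    linarith
  refine ⟨min ρ1 ρ2, lt_min hρ1 hρ2, w, fun x y hx hy hxy => ?_⟩
  have x1 := (abs_lt.1 (hx.trans_le (min_le_left _ _))).1
  have y2 := (abs_lt.1 (hy.trans_le (min_le_right _ _))).2
  rcases le_total y s with hys | hys
  · exact A x y (by linarith) hxy hys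
  · rcases le_total s x with hxs | hxs
    · exact B x y hxs hxy (by linarith)
    · rcases eq_or_lt_of_le hxs with e | e
      · exact B x y e.ge hxy (by linarith)
      · rcases eq_or_lt_of_le hys with e' | e'
        · exact A x y (by linarith) hxy e'.ge
        · have p1 := A x s (by linarith) e le_rfl
          have p2 := B s y le_rfl e' (by linarith)
          rw [show w * (c y - c x) = w * (c s - c x) + w * (c y - c s) by ring, Complex.add_re]
          linarith

/-- opposite one-sided derivatives: a thin tip -/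
theorem sides_tip {c : ℝ → ℂ} {s r : ℝ} {u : ℂ} (hu : u ≠ 0) (hr : 0 < r)
    (h : StrongSides c s u (-(r * u))) : ThinTip c s := by
  have hw : 0 < ‖u‖ := norm_pos_iff.2 hu
  obtain ⟨w, hwd⟩ : ∃ w, w = starRingEnd ℂ u := ⟨_, rfl⟩
  have hwn : ‖w‖ = ‖u‖ := by rw [hwd]; simp
  have huu : w * u = ((‖u‖ ^ 2 : ℝ) : ℂ) := by
    rw [hwd, mul_comm, Complex.mul_conj, Complex.normSq_eq_norm_sq]
  have hre : (w * u).re = ‖u‖ ^ 2 := by rw [huu, Complex.ofReal_re]
  have him : (w * u).im = 0 := by rw [huu, Complex.ofReal_im]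
  obtain ⟨ρ1, hρ1, k1⟩ := h.1 (‖u‖ / 12) (by positivity)
  obtain ⟨ρ2, hρ2, k2⟩ := h.2 (r * ‖u‖ / 12) (by positivity)
  refine ⟨min ρ1 ρ2, lt_min hρ1 hρ2, w, fun x y a1 a2 a3 => ?_, fun x y a1 a2 a3 => ?_⟩
  · have hm := min_le_left ρ1 ρ2
    refine side (u := u) (κ := 5) (ε := ‖u‖ / 12) (t := y - x) (by linarith)
      (by have := k1 x y (by linarith) a2 a3; push_cast; exact this) ?_ (by norm_num)
    rw [hre, him, hwn, abs_zero]
    nlinarith [sq_nonneg ‖u‖, mul_pos hw hw]
  · have hm := min_le_right ρ1 ρ2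
    have e : w * (c y - c x) = -(-w * (c y - c x)) := by ring
    rw [e, Complex.neg_re, Complex.neg_im, abs_neg, neg_neg]
    refine side (w := -w) (u := -(r * u)) (κ := 5) (ε := r * ‖u‖ / 12) (t := y - x) (by linarith)
      (by have := k2 x y a1 a2 (by linarith); push_cast; exact this) ?_ (by norm_num)
    have e2 : -w * -(r * u) = ((r * ‖u‖ ^ 2 : ℝ) : ℂ) := by
      rw [show -w * -(r * u) = r * (w * u) by ring, huu]
      push_cast
      ring
    rw [e2, Complex.ofReal_re, Complex.ofReal_im, norm_neg, hwn, abs_zero]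
    have := mul_pos hr (mul_pos hw hw)
    nlinarith

/-- injectivity on a period -/
theorem inj_of {c : ℝ → ℂ} (L : Pool.Agent.H763R2.An.Loop c) (hinj : InjOn c (Ico 0 1)) :
    Pool.Agent.H763R2.An.Inj c := by
  intro x y hxy hy he
  have e1 : c (Int.fract x) = c x := by
    have := L.per_int (Int.fract x) ⌊x⌋
    rw [Int.fract_add_floor] at this
    exact this.symm
  have e2 : c (Int.fract y) = c y := by
    have := L.per_int (Int.fract y) ⌊y⌋
    rw [Int.fract_add_floor] at this
    exact this.symm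
  have e3 := hinj ⟨Int.fract_nonneg x, Int.fract_lt_one x⟩
    ⟨Int.fract_nonneg y, Int.fract_lt_one y⟩ (by rw [e1, e2, he])
  obtain ⟨m, hm⟩ := Int.fract_eq_fract.1 e3
  have h1 : (m : ℝ) < 0 := by linarith
  have h2 : (-1 : ℝ) < m := by linarith
  have h3 : m < 0 := by exact_mod_cast h1
  have h4 : -1 < m := by exact_mod_cast h2
  omega

/-- the case of a curve that is locally monotone everywhere -/
theorem of_mono {c : ℝ → ℂ} (hc : Continuous c) (hper : ∀ t, c (t + 1) = c t)
    (hinj : InjOn c (Ico 0 1)) (H : ∀ s, LocMono c s) :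
    ∃ z w : ℂ, w ≠ 0 ∧ z ∈ range c ∧ z + w ∈ range c ∧ z + w + Complex.I * w ∈ range c ∧
      z + Complex.I * w ∈ range c := by
  obtain ⟨ε, hε, h⟩ := Pool.Agent.Results.MP_5a3ebe_gt.LocalGraph.result c hc hper hinj (fun τ => by
    obtain ⟨ρ, hρ, w, hw⟩ := H τ
    have hw0 : w ≠ 0 := by
      rintro rfl
      have := hw τ (τ + ρ / 2) (by simpa using hρ) (by
        rw [add_sub_cancel_left, abs_of_pos (by positivity)]; linarith) (by linarith)
      simp at this
    obtain ⟨φ, hφ⟩ : ∃ φ : ℂ →L[ℝ] ℝ, ∀ z, φ z = (w * z).re :=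
      ⟨Complex.reCLM.comp (ContinuousLinearMap.mul ℝ ℂ w), fun z => rfl⟩
    refine ⟨fun z => φ z, univ, Filter.univ_mem, 0, fun z _ => φ.differentiableAt, ?_, ?_, ρ, hρ,
      ?_⟩
    · have : fderiv ℝ (fun z => φ z) = fun _ => φ := by
        funext z
        exact φ.fderiv
      rw [this]
      exact (LipschitzWith.const φ).lipschitzOnWith
    · have : fderiv ℝ (fun z => φ z) (c τ) = φ := φ.fderiv
      rw [this]
      intro h0
      have h1 := hφ (starRingEnd ℂ w)
      rw [h0, Complex.mul_conj] at h1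
      simp only [zero_apply, Complex.ofReal_re] at h1
      exact hw0 (Complex.normSq_eq_zero.1 h1.symm)
    · intro x hx y hy hxy
      simp only
      rcases eq_or_lt_of_le hxy with e | e
      · rw [e]
      · have := hw x y (abs_lt.2 ⟨by linarith [hx.1], by linarith [hx.2]⟩)
          (abs_lt.2 ⟨by linarith [hy.1], by linarith [hy.2]⟩) e
        rw [mul_sub, Complex.sub_re] at this
        rw [hφ, hφ]
        linarith)
  exact h c hc hper hinj fun t => by rw [sub_self, norm_zero]; exact hε.le

/-- A Jordan curve which at each parameter is locally monotone, or has a thin tip, or has strong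
one-sided derivatives different from zero, contains the four vertices of a square. -/
theorem result (c : ℝ → ℂ) (hc : Continuous c) (hper : ∀ t, c (t + 1) = c t)
    (hinj : InjOn c (Ico 0 1))
    (H : ∀ s, LocMono c s ∨ ThinTip c s ∨ ∃ u v : ℂ, u ≠ 0 ∧ v ≠ 0 ∧ StrongSides c s u v) :
    ∃ z w : ℂ, w ≠ 0 ∧ z ∈ range c ∧ z + w ∈ range c ∧ z + w + Complex.I * w ∈ range c ∧
      z + Complex.I * w ∈ range c := by
  have H' : ∀ s, LocMono c s ∨ ThinTip c s := by
    intro s
    rcases H s with h | h | ⟨u, v, hu, hv, h⟩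
    · exact Or.inl h
    · exact Or.inr h
    · by_cases hop : ∃ r : ℝ, 0 < r ∧ v = -(r * u)
      · obtain ⟨r, hr, rfl⟩ := hop
        exact Or.inr (sides_tip hu hr h)
      · obtain ⟨w, h1, h2⟩ := common hu hv hop
        exact Or.inl (sides_mono h h1 h2)
  by_contra hno
  have L : Pool.Agent.H763R2.An.Loop c := ⟨hc, hper⟩
  exact hno (of_mono hc hper hinj
    (Pool.Agent.Q155.Cusp.no_tips L (inj_of L hinj) hno H'))

end Pool.Agent.Results.MP_5a3ebe_gt.CuspsAndThinTips
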