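import Pool.Agent.Q39.PG.Hull

/-! Inscribed squares in Jordan curves that touch their convex hull in a suitable polygon; the arcs
between the points of contact are arbitrary apart from their rough position. -/

namespace Pool.Agent.Results.MP_5a3ebe_gt.SupportPolygons

open Complex Set

/-- `C` contains the four vertices of a square. -/
def HasSquare (C : Set ℂ) : Prop :=
  ∃ z w : ℂ, w ≠ 0 ∧ z ∈ C ∧ z + w ∈ C ∧ z + w + I * w ∈ C ∧ z + I * w ∈ C

/-- `z` lies inside `C`: it is not on `C`, and its component of the complement of `C` is bounded. -/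
def Inside (C : Set ℂ) (z : ℂ) : Prop :=
  z ∉ C ∧ Bornology.IsBounded (connectedComponentIn Cᶜ z)

/-- The square on the left of the chord from `A` to `B` does not have both its further vertices
`A + i (B - A)` and `B + i (B - A)` inside `C`. -/
def Blocked (C : Set ℂ) (A B : ℂ) : Prop :=
  ¬ (Inside C (A + I * (B - A)) ∧ Inside C (B + I * (B - A)))

/-- The scalar product of two vectors of the plane. -/
def dot (u z : ℂ) : ℝ := u.re * z.re + u.im * z.im

/-- The determinant of two vectors of the plane; it is positive if `z` points to the left of `u`. -/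
def det (u z : ℂ) : ℝ := u.re * z.im - u.im * z.re

/-- Let `C` be a Jordan curve parametrised by `c : ℝ → ℂ` of period `1`. Each of the following
conditions implies that `C` contains the vertices of a square.

* **Staircases.** `X j = c (x j)` and `Y j = c (y j)`, `j = 0, …, m`, move once around `C` (`x`, `y`
are nondecreasing, `x m = x 0 + 1`, `y m = y 0 + 1`) with `x (j + 1) < y j < x j + 1`, and the chords
from all points of the arc `X j, X (j + 1)` to `Y j` and from `X (j + 1)` to all points of the arc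
`Y j, Y (j + 1)` are blocked.
* **`n` points.** `P j = c (p j)` are `n` points of `C` in cyclic order (`p` is strictly increasing
with `p (j + n) = p j + 1`), `1 ≤ a ≤ n - 2`, and for each `j` the chords from the points of the arc
`P (j + a), P (j + a + 1)` to `P j` and the chords from `P j` to the points of the arc
`P (j - a - 1), P (j - a)` are blocked.
* **Coarsely convex curves.** `P j` and `a` are as before, `u j` and `v j` are nonzero vectors, `C` is
on the left of the line through `P j` in the direction `u j` and on the right of the line through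
`P j` in the direction `v j` (for instance, `v j = - u j` and `P j` lies on a support line of `C` in
the direction `u j`), the arc `P (j + a), P (j + a + 1)` lies in the half plane
`⟨u j, X - P j⟩ ≥ 0`, and the arc `P (j - a - 1), P (j - a)` lies in the half plane
`⟨v j, X - P j⟩ ≥ 0`. (For `a = 1` and `v j = - u j` this says that the arc between `P j` and
`P (j + 1)` lies between the normals of `C` at `P (j - 1)` and at `P (j + 2)`.)
* **Odd polygons.** `P j` are `n = 2 k + 1 ≥ 3` points of `C` in cyclic order, and for each point `X`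
of the arc `P (j + k), P (j + k + 1)` opposite to `P j` and all points `Z` of `C` the angle
`X P j Z` is at most 90 degrees.
* **Three corners.** There are three different points of `C` from each of which `C` is seen under
an angle of at most 90 degrees (it lies in a quadrant with this apex).
* **Triangles.** `C` lies in a triangle `P Q R` all angles of which are at most 90 degrees and
contains its three vertices. -/
theorem result (c : ℝ → ℂ) (hc : Continuous c) (hper : ∀ t, c (t + 1) = c t)
    (hinj : InjOn c (Ico 0 1)) :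
    (∀ (m : ℕ) (x y : ℕ → ℝ), (∀ j < m, x j ≤ x (j + 1)) → (∀ j < m, y j ≤ y (j + 1)) →
      x m = x 0 + 1 → y m = y 0 + 1 → (∀ j < m, x (j + 1) < y j) → (∀ j < m, y j < x j + 1) →
      (∀ j < m, ∀ t ∈ Icc (x j) (x (j + 1)), Blocked (range c) (c t) (c (y j))) →
      (∀ j < m, ∀ t ∈ Icc (y j) (y (j + 1)), Blocked (range c) (c (x (j + 1))) (c t)) →
      HasSquare (range c)) ∧
    (∀ n a : ℕ, 1 ≤ a → a + 2 ≤ n → ∀ p : ℤ → ℝ, StrictMono p →
      (∀ j : ℤ, p (j + n) = p j + 1) →
      (∀ j : ℤ, ∀ t ∈ Icc (p (j + a)) (p (j + a + 1)), Blocked (range c) (c t) (c (p j))) →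
      (∀ j : ℤ, ∀ t ∈ Icc (p (j - a - 1)) (p (j - a)), Blocked (range c) (c (p j)) (c t)) →
      HasSquare (range c)) ∧
    (∀ n a : ℕ, 1 ≤ a → a + 2 ≤ n → ∀ p : ℤ → ℝ, StrictMono p →
      (∀ j : ℤ, p (j + n) = p j + 1) → ∀ u v : ℤ → ℂ, (∀ j, u j ≠ 0) → (∀ j, v j ≠ 0) →
      (∀ j s, 0 ≤ det (u j) (c s - c (p j))) → (∀ j s, det (v j) (c s - c (p j)) ≤ 0) →
      (∀ j : ℤ, ∀ t ∈ Icc (p (j + a)) (p (j + a + 1)), 0 ≤ dot (u j) (c t - c (p j))) →
      (∀ j : ℤ, ∀ t ∈ Icc (p (j - a - 1)) (p (j - a)), 0 ≤ dot (v j) (c t - c (p j))) →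
      HasSquare (range c)) ∧
    (∀ k : ℕ, 1 ≤ k → ∀ p : ℤ → ℝ, StrictMono p → (∀ j : ℤ, p (j + (2 * k + 1)) = p j + 1) →
      (∀ j : ℤ, ∀ t ∈ Icc (p (j + k)) (p (j + k + 1)), ∀ s,
        0 ≤ dot (c t - c (p j)) (c s - c (p j))) → HasSquare (range c)) ∧
    (∀ P Q R : ℂ, P ∈ range c → Q ∈ range c → R ∈ range c → P ≠ Q → Q ≠ R → P ≠ R →
      (∀ V ∈ ({P, Q, R} : Set ℂ), ∃ u : ℂ, u ≠ 0 ∧ ∀ Z ∈ range c,
        0 ≤ dot u (Z - V) ∧ 0 ≤ det u (Z - V)) → HasSquare (range c)) ∧
    (∀ P Q R : ℂ, P ∈ range c → Q ∈ range c → R ∈ range c → P ≠ Q → Q ≠ R → P ≠ R →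
      range c ⊆ convexHull ℝ {P, Q, R} → 0 ≤ dot (Q - P) (R - P) → 0 ≤ dot (P - Q) (R - Q) →
      0 ≤ dot (P - R) (Q - R) → HasSquare (range c)) := by
  have L : H763R2.An.Loop c := ⟨hc, hper⟩
  have J := H765R3.Peg.inj_of L hinj
  have fr : ∀ z, ¬ Inside (range c) z → H763R2.An.mgc c z ≤ 0 := by
    intro z hz
    apply W675.Peg.mgc_le_of_free L
    unfold Inside at hz
    unfold W675.Peg.Free
    tauto
  have hB : ∀ A B, Blocked (range c) A B → H763R2.An.mgc c (A + I * (B - A)) ≤ 0 ∨
      H763R2.An.mgc c (B + I * (B - A)) ≤ 0 :=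
    fun A B h => (not_and_or.1 h).imp (fr _) (fr _)
  have hdot : ∀ u z : ℂ, (z * (starRingEnd ℂ) u).re = dot u z := by
    intro u z
    simp only [dot, mul_re, conj_re, conj_im]; ring
  have hdet : ∀ u z : ℂ, (z * (starRingEnd ℂ) u).im = det u z := by
    intro u z
    simp only [det, mul_im, conj_re, conj_im]; ring
  refine ⟨?_, ?_, ?_, ?_, ?_, ?_⟩
  · intro m x y hx hy hxm hym h1 h2 hE hD
    by_contra hno
    exact Q39.PG.stairG L J hno _ hB m x y hx hy hxm hym h1 h2 hE hD
  · intro n a ha han p hp hpn hR hL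
    by_contra hno
    exact Q39.PG.pointsG L J hno _ hB n a ha han p hp hpn hR hL
  · intro n a ha han p hp hpn u v hu hv h1 h2 h3 h4
    by_contra hno
    refine Q39.PG.points L J hno n a ha han p hp hpn (fun j t ht => ?_) (fun j t ht => ?_)
    · refine Q39.PG.blocked_end (hu j) ?_ ?_
      · rintro _ ⟨s, rfl⟩
        rw [hdet]; exact h1 j s
      · rw [hdot]; exact h3 j t ht
    · refine Q39.PG.blocked_start (hv j) ?_ ?_
      · rintro _ ⟨s, rfl⟩
        rw [hdet]; exact h2 j s
      · rw [hdot]; exact h4 j t ht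
  · intro k hk p hp hpn h
    by_contra hno
    have key : ∀ j : ℤ, ∀ t ∈ Icc (p (j + k)) (p (j + k + 1)),
        Q39.PG.Blocked (range c) (c t) (c (p j)) ∧ Q39.PG.Blocked (range c) (c (p j)) (c t) := by
      intro j t ht
      refine Q39.PG.blocked_both ?_ ?_
      · have h1 : p j < p (j + k) := hp (by omega)
        have h2 : p (j + k + 1) < p j + 1 := by
          rw [← hpn j]
          exact hp (by omega)
        exact (J _ _ (by linarith [ht.1]) (by linarith [ht.2])).symm
      · rintro _ ⟨s, rfl⟩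
        rw [hdot]; exact h j t ht s
    have hpn' : ∀ j : ℤ, p (j + ((2 * k + 1 : ℕ) : ℤ)) = p j + 1 := by
      intro j
      rw [← hpn j]
      push_cast
      rfl
    refine Q39.PG.points L J hno (2 * k + 1) k hk (by omega) p hp hpn'
      (fun j t ht => (key j t ht).1) (fun j t ht => ?_)
    have e1 : p (j + k) = p (j - k - 1) + 1 := by
      rw [← hpn (j - k - 1)]
      congr 1; ring
    have e2 : p (j + k + 1) = p (j - k) + 1 := by
      rw [← hpn (j - k)]
      congr 1; ring
    have h3 := (key j (t + 1) ⟨by rw [e1]; linarith [ht.1], by rw [e2]; linarith [ht.2]⟩).2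
    rwa [hper] at h3
  · intro P Q R hP hQ hR hPQ hQR hPR h
    by_contra hno
    have cor : ∀ V ∈ ({P, Q, R} : Set ℂ), Q39.PG.Corner (range c) V := by
      intro V hV
      obtain ⟨u, hu, h⟩ := h V hV
      refine ⟨(starRingEnd ℂ) u, (map_ne_zero _).2 hu, fun z hz => ?_⟩
      rw [hdot, hdet]
      exact h z hz
    exact Q39.PG.three L J hno hP hQ hR hPQ hQR hPR (cor P (by simp)) (cor Q (by simp))
      (cor R (by simp))
  · intro P Q R hP hQ hR hPQ hQR hPR hsub h1 h2 h3
    by_contra hno
    have sw : ∀ u z : ℂ, dot u z = dot z u := fun u z => by simp only [dot]; ring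
    have s1 : ({P, Q, R} : Set ℂ) = {Q, P, R} := insert_comm _ _ _
    have s2 : ({P, Q, R} : Set ℂ) = {R, P, Q} := by
      ext x; simp only [mem_insert_iff, mem_singleton_iff]; tauto
    refine Q39.PG.three L J hno hP hQ hR hPQ hQR hPR
      (Q39.PG.corner_of_triangle hsub hPQ hPR ?_)
      (Q39.PG.corner_of_triangle (s1 ▸ hsub) hPQ.symm hQR ?_)
      (Q39.PG.corner_of_triangle (s2 ▸ hsub) hPR.symm hQR.symm ?_)
    · rw [hdot, sw]; exact h1
    · rw [hdot, sw]; exact h2
    · rw [hdot, sw]; exact h3

end Pool.Agent.Results.MP_5a3ebe_gt.SupportPolygons
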