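import Mathlib
import Pool.Agent.Q155.Cusp.Wild
import Pool.Agent.Results.MP_5a3ebe_gt.CuspsAndThinTips

/-!
# Inscribed squares in Jordan curves made of tame arcs and of arbitrarily wild arcs in thin rhombi

A Jordan curve is cut into arcs at finitely many parameters at which it is tame (short chords near
the parameter make angles of less than 45 degrees with a fixed direction).  Each arc may be of one
of three kinds: locally monotone up to thin tips and cusps; or an arbitrary arc, with no regularity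
at all, inside the open rhombus with angles of 45 degrees on its chord, such that the rest of the
curve does not enter two rhombi inside the square on one side of the chord; or an arc that is mapped
onto itself, with exchanged ends, by a similarity.  Such a curve has an inscribed square.
-/

set_option autoImplicit false

namespace Pool.Agent.Results.MP_5a3ebe_gt.WildArcs

open Set Complex

/-- near the parameter `s` all chords of the curve make an angle of less than 45 degrees with a
fixed direction -/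
def Tame (c : ℝ → ℂ) (s : ℝ) : Prop := ∃ ρ > 0, ∃ w : ℂ, ∀ x y : ℝ, |x - s| < ρ → |y - s| < ρ →
  x < y → |(w * (c y - c x)).im| < (w * (c y - c x)).re

/-- near the parameter `s` all chords of the curve lie in one open half plane (local monotonicity in
the sense of Stromquist) -/
def LocMono (c : ℝ → ℂ) (s : ℝ) : Prop := ∃ ρ > 0, ∃ w : ℂ, ∀ x y : ℝ, |x - s| < ρ → |y - s| < ρ →
  x < y → 0 < (w * (c y - c x)).re

/-- the curve runs into the point `c s` and back out of it in nearly the same direction: both branches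
are graphs of functions with slopes less than `1/5` over the same half line -/
def ThinTip (c : ℝ → ℂ) (s : ℝ) : Prop := ∃ ρ > 0, ∃ w : ℂ,
  (∀ x y : ℝ, s - ρ < x → x < y → y ≤ s → 5 * |(w * (c y - c x)).im| < (w * (c y - c x)).re) ∧
  (∀ x y : ℝ, s ≤ x → x < y → y < s + ρ → 5 * |(w * (c y - c x)).im| < -(w * (c y - c x)).re)

/-- the curve has at the parameter `s` the one-sided derivatives `u` and `v`, in the strong sense -/
def StrongSides (c : ℝ → ℂ) (s : ℝ) (u v : ℂ) : Prop :=
  (∀ ε > 0, ∃ ρ > 0, ∀ x y : ℝ, s - ρ < x → x < y → y ≤ s →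
    ‖c y - c x - (y - x) * u‖ ≤ ε * (y - x)) ∧
  (∀ ε > 0, ∃ ρ > 0, ∀ x y : ℝ, s ≤ x → x < y → y < s + ρ →
    ‖c y - c x - (y - x) * v‖ ≤ ε * (y - x))

/-- the arc over `[a, b]` is tame: at each parameter locally monotone, or a thin tip, or with
non-zero strong one-sided derivatives -/
def TameArc (c : ℝ → ℂ) (a b : ℝ) : Prop := ∀ s ∈ Icc a b, LocMono c s ∨ ThinTip c s ∨
  ∃ u v : ℂ, u ≠ 0 ∧ v ≠ 0 ∧ StrongSides c s u v

/-- the open rhombus with the diagonal `P Q` and with angles of 45 degrees at `P` and at `Q` -/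
def Rhombus (P Q : ℂ) : Set ℂ := {z | ∃ x y : ℝ, z = P + (x + y * I) * (Q - P) ∧
  |y| < (√2 - 1) * x ∧ |y| < (√2 - 1) * (1 - x)}

/-- an arbitrary arc: the open arc over `(a, b)` lies in the rhombus on its chord, and the
complementary arc avoids two rhombi and two points of the square erected on one side of the chord
(`ε = I` or `ε = -I` tells the side), whose vertices are `c a`, `c b`, `c b + ε (c b - c a)` and
`c a + ε (c b - c a)` -/
def WildArc (c : ℝ → ℂ) (a b : ℝ) : Prop := (∀ t ∈ Ioo a b, c t ∈ Rhombus (c a) (c b)) ∧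
  ∃ ε : ℂ, (ε = I ∨ ε = -I) ∧ ∀ t ∈ Icc b (a + 1),
    c t ∉ Rhombus (c a) (c b + ε * (c b - c a)) ∧ c t ∉ Rhombus (c a + ε * (c b - c a)) (c b) ∧
    c t ≠ c a + ε * (c b - c a) ∧ c t ≠ c b + ε * (c b - c a)

/-- more generally: on the curve there is no third vertex, on the given side, of an isosceles right
triangle whose right angle is at a point of the arc and one leg of which leads to an end of the
arc -/
def ShieldedArc (c : ℝ → ℂ) (a b : ℝ) : Prop := ∃ ε : ℂ, (ε = I ∨ ε = -I) ∧
  (∀ v, a < v → v ≤ b → c v + ε * (c v - c a) ∉ range c) ∧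
  ∀ u, a ≤ u → u < b → c u + ε * (c b - c u) ∉ range c

/-- a similarity maps the arc onto itself and its initial point to its final point -/
def SymmetricArc (c : ℝ → ℂ) (a b : ℝ) : Prop := ∃ u v : ℂ, u ≠ 0 ∧
  (((fun z => u * z + v) '' (c '' Icc a b) = c '' Icc a b ∧ u * c a + v = c b) ∨
    ((fun z => u * (starRingEnd ℂ) z + v) '' (c '' Icc a b) = c '' Icc a b ∧
      u * (starRingEnd ℂ) (c a) + v = c b))

/-- A Jordan curve which is cut at `n ≥ 2` tame parameters into arcs each of which is tame, or wild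
in a rhombus, or shielded, or symmetric, contains the four vertices of a square. -/
theorem result (c : ℝ → ℂ) (hc : Continuous c) (hper : ∀ t, c (t + 1) = c t)
    (hinj : InjOn c (Ico 0 1)) (n : ℕ) (hn : 2 ≤ n) (t : ℕ → ℝ) (ht : ∀ i < n, t i < t (i + 1))
    (h1 : t n = t 0 + 1) (hcut : ∀ i < n, Tame c (t i))
    (H : ∀ i < n, TameArc c (t i) (t (i + 1)) ∨ WildArc c (t i) (t (i + 1)) ∨
      ShieldedArc c (t i) (t (i + 1)) ∨ SymmetricArc c (t i) (t (i + 1))) :
    ∃ z w : ℂ, w ≠ 0 ∧ z ∈ range c ∧ z + w ∈ range c ∧ z + w + I * w ∈ range c ∧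
      z + I * w ∈ range c := by
  by_contra hno
  have L : Pool.Agent.H763R2.An.Loop c := ⟨hc, hper⟩
  have J := CuspsAndThinTips.inj_of L hinj
  have nosq : Pool.Agent.H763R2.Dm.NoSq (range c) := hno
  obtain ⟨θ, g, x, l0, A, hodd, hx, hgx, hmon, hsym⟩ := Pool.Agent.Y535.PEG.exF L J nosq
  have hcut' : ∀ i ≤ n, Pool.Agent.Y535.PEG.Cone c (t i) := by
    intro i hi
    rcases Nat.lt_or_eq_of_le hi with h | h
    · exact hcut i h
    · rw [h, h1]
      exact Pool.Agent.Y535.PEG.Cone.per L (hcut 0 (by omega))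
  have hlen := fun i (hi : i < n) => Pool.Agent.Y535.PEG.ord_len hn ht h1 hi
  have hev : ∀ i < n, Even (x (t (i + 1)) - x (t i)) := by
    intro i hi
    have hAR : Pool.Agent.Y535.PEG.AR c (t i) (t (i + 1)) :=
      ⟨ht i hi, hlen i hi, hcut' i hi.le, hcut' (i + 1) (by omega)⟩
    rcases H i hi with h | ⟨hin, ε, hε, hout⟩ | ⟨ε, hε, h⟩ | ⟨u, v, hu, h⟩
    · refine Pool.Agent.Q155.Cusp.arc_even L J nosq A hx hmon hAR fun s hs => ?_
      rcases h s hs with h | h | ⟨u, v, hu, hv, h⟩
      · exact Or.inl h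
      · exact Or.inr h
      · by_cases hop : ∃ r : ℝ, 0 < r ∧ v = -(r * u)
        · obtain ⟨r, hr, rfl⟩ := hop
          exact Or.inr (CuspsAndThinTips.sides_tip hu hr h)
        · obtain ⟨w, e1, e2⟩ := CuspsAndThinTips.common hu hv hop
          exact Or.inl (CuspsAndThinTips.sides_mono h e1 e2)
    · exact Pool.Agent.Q155.Cusp.shield_even L J nosq A hx hAR hε
        (Pool.Agent.Q155.Cusp.shielded_of_rh (J _ _ hAR.ab hAR.ba) hAR.ab hAR.ba L hε hin hout)
    · exact Pool.Agent.Q155.Cusp.shield_even L J nosq A hx hAR hε h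
    · rcases h with h | h
      · exact hsym _ _ hAR ⟨_, ⟨u, v, hu, Or.inl rfl⟩, h.1, h.2⟩
      · exact hsym _ _ hAR ⟨_, ⟨u, v, hu, Or.inr rfl⟩, h.1, h.2⟩
  have E := Pool.Agent.Q155.Cusp.chain_even hev
  rw [h1, hgx _ (hcut 0 (by omega)), add_sub_cancel_left] at E
  exact (Int.not_even_iff_odd.2 hodd) E

end Pool.Agent.Results.MP_5a3ebe_gt.WildArcs
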